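import Pool.Agent.R914.UN.PMain

/-!
# Change of the basis
-/

set_option linter.unusedSectionVars false

namespace Pool.Agent.R914.NC

open Matrix Pool.Agent.R914.UN

variable {B : Type} [Fintype B] [DecidableEq B]

section

variable {ι κ : Type} [Fintype ι] [DecidableEq ι] [Fintype κ] [DecidableEq κ]

lemma tp_mulT (O : Matrix B B ℂ) (v : (ι → B) → ℂ) (u : (κ → B) → ℂ) :
    tp (ι ⊕ κ) O *ᵥ mulT v u = mulT (tp ι O *ᵥ v) (tp κ O *ᵥ u) := by
  funext w
  rw [mulT, mulVec, dotProduct, TSys.sum_sum, mulVec, mulVec, dotProduct, dotProduct,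
    Finset.sum_mul_sum]
  refine Finset.sum_congr rfl fun x _ => Finset.sum_congr rfl fun y _ => ?_
  rw [tp_apply, Fintype.prod_sum_type, tp_apply, tp_apply, mulT]
  simp only [Sum.elim_inl, Sum.elim_inr, Sum.elim_comp_inl, Sum.elim_comp_inr,
    Function.comp_apply]
  ring

lemma tp_two_sum (O : Matrix B B ℂ) (u : (Fin 2 ⊕ κ → B) → ℂ) (i j : B) (w : κ → B) :
    (tp (Fin 2 ⊕ κ) O *ᵥ u) (Sum.elim ![i, j] w) =
      ∑ a, ∑ b, O i a * O j b * (tp κ O *ᵥ fun y => u (Sum.elim ![a, b] y)) w := by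
  rw [mulVec, dotProduct, TSys.sum_sum, ← (finTwoArrowEquiv B).symm.sum_comp,
    Fintype.sum_prod_type]
  refine Finset.sum_congr rfl fun a _ => Finset.sum_congr rfl fun b _ => ?_
  rw [mulVec, dotProduct, Finset.mul_sum]
  refine Finset.sum_congr rfl fun y _ => ?_
  rw [tp_apply, Fintype.prod_sum_type, tp_apply, finTwoArrowEquiv_symm_apply]
  simp only [Sum.elim_inl, Sum.elim_inr, Fin.prod_univ_two, Matrix.cons_val_zero,
    Matrix.cons_val_one]
  ring

lemma tp_bcon (O J : Matrix B B ℂ) (u : (Fin 2 ⊕ κ → B) → ℂ) :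
    tp κ O *ᵥ (fun w => ∑ a, ∑ b, (Oᵀ * J * O) a b * u (Sum.elim ![a, b] w)) =
      fun w => ∑ i, ∑ j, J i j * (tp (Fin 2 ⊕ κ) O *ᵥ u) (Sum.elim ![i, j] w) := by
  funext w
  have h1 : (tp κ O *ᵥ (fun w => ∑ a, ∑ b, (Oᵀ * J * O) a b * u (Sum.elim ![a, b] w))) w =
      ∑ a, ∑ b, (Oᵀ * J * O) a b * (tp κ O *ᵥ fun y => u (Sum.elim ![a, b] y)) w := by
    simp only [mulVec, dotProduct, Finset.mul_sum]
    rw [Finset.sum_comm]
    refine Finset.sum_congr rfl fun a _ => ?_
    rw [Finset.sum_comm]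
    refine Finset.sum_congr rfl fun b _ => Finset.sum_congr rfl fun y _ => ?_
    ring
  rw [h1]
  simp only [tp_two_sum]
  generalize hF : (fun a b => (tp κ O *ᵥ fun y => u (Sum.elim ![a, b] y)) w) = F
  have h2 : ∀ a b, (tp κ O *ᵥ fun y => u (Sum.elim ![a, b] y)) w = F a b := fun a b => by
    rw [← hF]
  simp only [h2, Matrix.mul_apply, Finset.sum_mul, Finset.mul_sum, transpose_apply]
  calc (∑ a, ∑ b, ∑ j, ∑ i, O i a * J i j * O j b * F a b)
      = ∑ a, ∑ j, ∑ b, ∑ i, O i a * J i j * O j b * F a b :=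
        Finset.sum_congr rfl fun a _ => Finset.sum_comm
    _ = ∑ j, ∑ a, ∑ b, ∑ i, O i a * J i j * O j b * F a b := Finset.sum_comm
    _ = ∑ j, ∑ a, ∑ i, ∑ b, O i a * J i j * O j b * F a b :=
        Finset.sum_congr rfl fun j _ => Finset.sum_congr rfl fun a _ => Finset.sum_comm
    _ = ∑ j, ∑ i, ∑ a, ∑ b, O i a * J i j * O j b * F a b :=
        Finset.sum_congr rfl fun j _ => Finset.sum_comm
    _ = ∑ i, ∑ j, ∑ a, ∑ b, O i a * J i j * O j b * F a b := Finset.sum_comm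
    _ = _ := Finset.sum_congr rfl fun i _ => Finset.sum_congr rfl fun j _ =>
        Finset.sum_congr rfl fun a _ => Finset.sum_congr rfl fun b _ => by ring

lemma star_tp (g : Matrix B B ℂ) (v : (ι → B) → ℂ) :
    star (tp ι g *ᵥ v) = tp ι (g.map star) *ᵥ star v := by
  funext I
  simp only [Pi.star_apply, mulVec, dotProduct, star_sum, tp_apply, star_mul', star_prod,
    Matrix.map_apply]

end

/-- The change of the basis. -/
def base (S : PSys B) (O O' : Matrix B B ℂ) (h : O * O' = 1) : PSys B where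
  A ι _ _ := (S.A ι).comap (Matrix.mulVecLin (tp ι O))
  J := Oᵀ * S.J * O
  K := O' * (S.K * O.map star)
  relabel := by
    intro ι κ _ _ _ _ e v hv
    rw [Submodule.mem_comap, mulVecLin_apply] at hv ⊢
    rw [tp_relabel]
    exact S.relabel e hv
  empty := by
    intro ι _ _ _ v
    rw [Submodule.mem_comap]
    exact S.empty _
  mul := by
    intro ι κ _ _ _ _ v u hv hu
    rw [Submodule.mem_comap, mulVecLin_apply] at hv hu ⊢
    rw [tp_mulT]
    exact S.mul hv hu
  bcon := by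
    intro κ _ _ u hu
    rw [Submodule.mem_comap, mulVecLin_apply] at hu ⊢
    rw [tp_bcon]
    exact S.bcon hu
  conj := by
    intro ι _ _ v hv
    rw [Submodule.mem_comap, mulVecLin_apply] at hv ⊢
    rw [mulVec_mulVec, ← tp_mul, ← Matrix.mul_assoc, h, Matrix.one_mul, tp_mul, ← mulVec_mulVec,
      ← star_tp]
    exact S.conj hv

end Pool.Agent.R914.NC
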