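import Pool.Agent.R914.UN.Tp

/-!
# Tensor powers of a smooth proper category with a duality
-/

namespace Pool.Agent.R914.NC

open Matrix Pool.Agent.R914.UN
open scoped ComplexOrder

variable {B : Type} [Fintype B] [DecidableEq B]

/-- The sign of the exchange of two classes: `-1` if both are odd. -/
def ksign (a b : Bool) : ℚ := if a = true ∧ b = true then -1 else 1

/-- The complexification of a rational tensor. -/
def cx {X : Type} (t : X → ℚ) : X → ℂ := fun I => (t I : ℂ)

/-- **The classes of the objects of the tensor powers of a smooth proper category `𝒟` over `ℂ` with an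
evaluation functor `𝒟 ⊗ 𝒟 → Perf(ℂ)`** (for instance `𝒟 = 𝒞 × 𝒞ᵒᵖ`). `B` is a basis of the rational
topological K-theory `K(𝒟) = K_0(𝒟) ⊕ K_1(𝒟)`; a function on `Fin n → B` is the tensor in `K(𝒟)^{⊗n}`
with these coordinates. -/
structure NCSystem (B : Type) [Fintype B] [DecidableEq B] where
  /-- the parities of the elements of the basis: `true` for those of `K_1` -/
  par : B → Bool
  /-- a bound for the degrees of the Hochschild homology of `𝒟` -/
  w : ℕ
  /-- the projection of `K(𝒟) ⊗ ℂ` to the Hochschild homology of degree `k` -/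
  π : ℤ → Matrix B B ℂ
  /-- the bilinear form on `K(𝒟)` induced by the evaluation -/
  J : Matrix B B ℚ
  /-- a polarisation of the Hodge structure `K(𝒟)` -/
  Ψ : Matrix B B ℚ
  /-- the span of the classes of the objects of `𝒟^{⊗(n+1)}` in `K(𝒟)^{⊗(n+1)}` -/
  A : ∀ n : ℕ, Submodule ℚ ((Fin (n + 1) → B) → ℚ)
  π_mul : ∀ k l, π k * π l = if k = l then π k else 0
  π_sum : ∑ k ∈ Finset.Icc (-(w : ℤ)) w, π k = 1
  /-- the Hodge decomposition is compatible with the parities -/
  π_par : ∀ k i j, π k i j ≠ 0 → par i = par j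
  /-- the evaluation is a perfect pairing, of degree `0` for the Hochschild degrees -/
  J_det : J.det ≠ 0
  J_orth : ∀ k l, k + l ≠ 0 → (π k)ᵀ * J.map (fun x : ℚ => (x : ℂ)) * π l = 0
  /-- the polarisation -/
  Ψ_orth : ∀ k l, k + l ≠ 0 → (π k)ᵀ * Ψ.map (fun x : ℚ => (x : ℂ)) * π l = 0
  Ψ_pos : (Ψ.map (fun x : ℚ => (x : ℂ)) *
    ∑ k ∈ Finset.Icc (-(w : ℤ)) w, Complex.I ^ k • π k).PosDef
  /-- the classes of objects are Hodge classes -/
  hodge : ∀ n, ∀ t ∈ A n, ∀ z : ℂ, z ≠ 0 → tp (Fin (n + 1)) (curve w π z) *ᵥ cx t = cx t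
  /-- the exchange of two neighbouring factors, with the Koszul sign -/
  swap : ∀ (n : ℕ) (i : Fin n), ∀ t ∈ A n, (fun I => ksign (par (I i.castSucc)) (par (I i.succ)) *
    t (I ∘ Equiv.swap i.castSucc i.succ)) ∈ A n
  /-- the exterior product -/
  mul : ∀ n m, ∀ t ∈ A n, ∀ u ∈ A m, (fun I : Fin (n + 1 + m + 1) → B =>
    t (fun i => I (Fin.castAdd (m + 1) i)) * u (fun j => I (Fin.natAdd (n + 1) j))) ∈ A (n + 1 + m)
  /-- the evaluation of the first two factors -/
  con : ∀ n, ∀ t ∈ A (n + 2),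
    (fun I => ∑ i, ∑ j, J i j * t (Fin.cons i (Fin.cons j I))) ∈ A n
  /-- the evaluation of the second and the third factor -/
  con' : ∀ n, ∀ t ∈ A (n + 2),
    (fun I => ∑ i, ∑ j, J i j * t (Fin.cons (I 0) (Fin.cons i (Fin.cons j (Fin.tail I))))) ∈ A n
  /-- there are two objects whose pairing is not zero -/
  obj : ∃ e ∈ A 0, ∃ f ∈ A 0, ∑ i, ∑ j, J i j * (f (fun _ => i) * e (fun _ => j)) ≠ 0

/-- `t` is a Hodge class on `𝒟^{⊗n}`: it lies in the Hochschild homology of degree `0`, that is, in the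
sum of the `HH_{k 1} ⊗ ⋯ ⊗ HH_{k n}` with `k 1 + ⋯ + k n = 0` (these are the tensors fixed by the
operators which act on `HH_k` by `z ^ k`, `z ≠ 0`). -/
def NCSystem.IsHodge (S : NCSystem B) (n : ℕ) (t : (Fin n → B) → ℚ) : Prop :=
  ∀ z : ℂ, z ≠ 0 → tp (Fin n) (curve S.w S.π z) *ᵥ cx t = cx t

/-- **The noncommutative Hodge conjecture for `𝒟^{⊗(n+1)}`.** -/
def NCSystem.HodgeConj (S : NCSystem B) (n : ℕ) : Prop :=
  ∀ t, S.IsHodge (n + 1) t → t ∈ S.A n

/-- The bound for the number of the factors, for `b = dim K(𝒟)` and for the bound `w` of the degrees of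
the Hochschild homology. -/
def bound (b w : ℕ) : ℕ := 2 * ((b ^ 2 + 1) * ((2 * w + 1) * (b ^ 2 + 1)) ^ (b ^ 2))

end Pool.Agent.R914.NC
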