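import Pool.Agent.R914.NC.Sys
import Pool.Agent.R914.NC.Base
import Pool.Agent.R914.CF.Desc

/-!
# One tensor power suffices
-/

set_option linter.unusedSectionVars false

namespace Pool.Agent.R914.NC

open Matrix Pool.Agent.R914.UN
open scoped ComplexOrder

variable {B : Type} [Fintype B] [DecidableEq B]

/-- Rational descent. -/
lemma rat_mem {X : Type} [Fintype X] [DecidableEq X] (A : Submodule ℚ (X → ℚ)) {t : X → ℚ}
    (ht : cx t ∈ Submodule.span ℂ (cx '' (A : Set (X → ℚ)))) : t ∈ A := by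
  by_contra hn
  obtain ⟨f, hf, hA⟩ := Submodule.exists_dual_map_eq_bot_of_notMem hn inferInstance
  have h1 : ∀ s : X → ℚ, ∑ x, (cx s x) * ((f (Pi.single x 1) : ℚ) : ℂ) = ((f s : ℚ) : ℂ) := by
    intro s
    have h2 : s = ∑ x, s x • (Pi.single x (1 : ℚ) : X → ℚ) := by
      funext y
      rw [Finset.sum_apply, Finset.sum_eq_single y]
      · simp
      · intro x _ hx
        simp [Pi.single_eq_of_ne (Ne.symm hx)]
      · intro h
        exact absurd (Finset.mem_univ _) h
    have h3 : f s = ∑ x, s x * f (Pi.single x 1) := by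
      conv_lhs => rw [h2]
      rw [map_sum]
      exact Finset.sum_congr rfl fun x _ => by rw [map_smul, smul_eq_mul]
    rw [h3]
    push_cast
    rfl
  have h4 : ∀ v ∈ Submodule.span ℂ (cx '' (A : Set (X → ℚ))),
      ∑ x, v x * ((f (Pi.single x 1) : ℚ) : ℂ) = 0 := by
    intro v hv
    induction hv using Submodule.span_induction with
    | mem y hy =>
      obtain ⟨s, hs, rfl⟩ := hy
      rw [h1]
      have : f s ∈ A.map f := ⟨s, hs, rfl⟩
      rw [hA, Submodule.mem_bot] at this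
      rw [this, Rat.cast_zero]
    | zero => simp
    | add x y _ _ hx hy =>
      simp only [Pi.add_apply, add_mul, Finset.sum_add_distrib]
      rw [hx, hy, add_zero]
    | smul c x _ hx =>
      simp only [Pi.smul_apply, smul_eq_mul, mul_assoc]
      rw [← Finset.mul_sum, hx, mul_zero]
  have h5 := h4 _ ht
  rw [h1] at h5
  exact hf (by exact_mod_cast h5)

section onb

open scoped MatrixOrder

/-- An orthonormal basis. -/
lemma exists_O {M : Matrix B B ℂ} (hM : M.PosDef) :
    ∃ O O' : Matrix B B ℂ, O * O' = 1 ∧ Oᴴ * M * O = 1 := by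
  obtain ⟨R, hR⟩ := CStarAlgebra.nonneg_iff_eq_star_mul_self.mp hM.posSemidef.nonneg
  rw [star_eq_conjTranspose] at hR
  have h1 : IsUnit M.det := (Matrix.isUnit_iff_isUnit_det _).1 hM.isUnit
  have h2 : IsUnit R.det := by
    rw [hR, det_mul] at h1
    exact isUnit_of_mul_isUnit_right h1
  refine ⟨R⁻¹, R, nonsing_inv_mul _ h2, ?_⟩
  rw [hR, ← Matrix.mul_assoc, ← conjTranspose_mul, mul_nonsing_inv _ h2, conjTranspose_one,
    Matrix.one_mul, mul_nonsing_inv _ h2]

end onb

lemma tp_empty {ι : Type} [Fintype ι] [DecidableEq ι] [IsEmpty ι] (g : Matrix B B ℂ)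
    (v : (ι → B) → ℂ) : tp ι g *ᵥ v = v := by
  funext w
  rw [mulVec, dotProduct, Fintype.sum_eq_single w (fun x hx => absurd (Subsingleton.elim x w) hx)]
  rw [tp_apply, Finset.univ_eq_empty, Finset.prod_empty, one_mul]

namespace NCSystem

variable (S : NCSystem B)

lemma conj_refl : S.G.conj (RingEquiv.refl ℂ) = S.G := rfl

lemma conj_conj (σ τ : ℂ ≃+* ℂ) : (S.G.conj σ).conj τ = S.G.conj (σ.trans τ) := rfl

/-- The tensors fixed by all conjugates of the torus. -/
def U (n : ℕ) : Submodule ℂ ((Fin n → B) → ℂ) where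
  carrier := {v | ∀ (σ : ℂ ≃+* ℂ) (z : ℂ), z ≠ 0 → tp (Fin n) ((S.G.conj σ).h z) *ᵥ v = v}
  add_mem' := fun {u v} hu hv σ z hz => by rw [mulVec_add, hu σ z hz, hv σ z hz]
  zero_mem' := fun σ z _ => mulVec_zero _
  smul_mem' := fun c v hv σ z hz => by rw [mulVec_smul, hv σ z hz]

lemma U_stable (n : ℕ) (τ : ℂ ≃+* ℂ) (v : (Fin n → B) → ℂ) (hv : v ∈ S.U n) :
    (fun i => τ (v i)) ∈ S.U n := by
  intro σ z hz
  have h1 : τ.symm z ≠ 0 := by
    intro h
    apply hz
    have := congrArg τ h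
    rwa [RingEquiv.apply_symm_apply, map_zero] at this
  have h2 := hv (σ.trans τ.symm) (τ.symm z) h1
  have h3 := tp_map n τ ((S.G.conj (σ.trans τ.symm)).h (τ.symm z)) v
  rw [h2, Grad.conj_h, RingEquiv.apply_symm_apply, conj_conj] at h3
  have h4 : (σ.trans τ.symm).trans τ = σ := by
    ext x
    simp
  rw [h4] at h3
  exact h3.symm

lemma mem_AC_of_U {N : ℕ} (H : S.HodgeUpTo N) {n : ℕ} (hn : n + 1 ≤ N)
    {v : (Fin (n + 1) → B) → ℂ} (hv : v ∈ S.U (n + 1)) : v ∈ S.AC n := by
  have h1 := Pool.Agent.R914.CF.span_rational (S.U (n + 1)) (fun τ v hv => S.U_stable _ τ v hv) v hv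
  refine Submodule.span_le.2 ?_ h1
  rintro u ⟨t, rfl, hu⟩
  refine S.mem_AC (H n hn t fun z hz => ?_)
  exact hu (RingEquiv.refl ℂ) z hz

lemma AC_fixed (n : ℕ) (v : (Fin (n + 1) → B) → ℂ) (hv : v ∈ S.AC n) : v ∈ S.U (n + 1) := by
  refine Submodule.span_le.2 ?_ hv
  rintro u ⟨t, ht, rfl⟩
  intro σ z hz
  exact S.fixed_of_hodge (S.hodge n t ht) σ hz

/-- The curves. -/
def curves (O O' : Matrix B B ℂ) : Set (ℤ → Matrix B B ℂ) :=
  {e | ∃ σ : ℂ ≃+* ℂ, e = fun k => O' * (S.G.conj σ).π k * O}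

lemma curve_eq (O O' : Matrix B B ℂ) (σ : ℂ ≃+* ℂ) (z : ℂ) :
    curve S.w (fun k => O' * (S.G.conj σ).π k * O) z = O' * (S.G.conj σ).h z * O := by
  rw [curve, Grad.h_def, Finset.mul_sum, Finset.sum_mul]
  refine Finset.sum_congr rfl fun k _ => ?_
  rw [mul_smul_comm, smul_mul_assoc]

lemma mem_gen (O O' : Matrix B B ℂ) (σ : ℂ ≃+* ℂ) {z : ℂ} (hz : z ≠ 0) :
    O' * (S.G.conj σ).h z * O ∈ gen S.w (S.curves O O') :=
  Submonoid.subset_closure ⟨_, ⟨σ, rfl⟩, z, hz, (S.curve_eq O O' σ z).symm⟩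

lemma gen_induction {O O' : Matrix B B ℂ} {p : Matrix B B ℂ → Prop}
    (h1 : p 1) (hmul : ∀ a b, p a → p b → p (a * b))
    (h : ∀ (σ : ℂ ≃+* ℂ) (z : ℂ), z ≠ 0 → p (O' * (S.G.conj σ).h z * O)) :
    ∀ g ∈ gen S.w (S.curves O O'), p g := by
  intro g hg
  induction hg using Submonoid.closure_induction with
  | mem x hx =>
    obtain ⟨e, ⟨σ, rfl⟩, z, hz, rfl⟩ := hx
    rw [curve_eq]
    exact h σ z hz
  | one => exact h1
  | mul a b _ _ ha hb => exact hmul a b ha hb

lemma form_gen {O O' : Matrix B B ℂ} (hO : O * O' = 1) {F : Matrix B B ℂ}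
    (hF : ∀ (σ : ℂ ≃+* ℂ) (z : ℂ), z ≠ 0 → ((S.G.conj σ).h z)ᵀ * F * (S.G.conj σ).h z = F) :
    ∀ g ∈ gen S.w (S.curves O O'), gᵀ * (Oᵀ * F * O) * g = Oᵀ * F * O := by
  refine S.gen_induction ?_ (fun a b ha hb => ?_) fun σ z hz => ?_
  · rw [transpose_one, Matrix.one_mul, Matrix.mul_one]
  · rw [transpose_mul]
    calc bᵀ * aᵀ * (Oᵀ * F * O) * (a * b) = bᵀ * (aᵀ * (Oᵀ * F * O) * a) * b := by
          simp only [Matrix.mul_assoc]
      _ = _ := by rw [ha, hb]
  · have hO2 : O'ᵀ * Oᵀ = 1 := by rw [← transpose_mul, hO, transpose_one]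
    rw [transpose_mul, transpose_mul]
    calc Oᵀ * (((S.G.conj σ).h z)ᵀ * O'ᵀ) * (Oᵀ * F * O) * (O' * (S.G.conj σ).h z * O)
        = Oᵀ * (((S.G.conj σ).h z)ᵀ * (O'ᵀ * Oᵀ) * F * (O * O') * (S.G.conj σ).h z) * O := by
          simp only [Matrix.mul_assoc]
      _ = _ := by rw [hO, hO2, Matrix.mul_one, Matrix.mul_one, hF σ z hz]

/-- **The theorem for the lengths up to `N`.** -/
theorem all {N : ℕ} (hN : 2 * degBound (Fintype.card B) S.w ≤ N) (H : S.HodgeUpTo N) (n : ℕ)
    (t : (Fin (n + 1) → B) → ℚ) (ht : S.IsHodge (n + 1) t) : t ∈ S.A n := by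
  have hd : 1 ≤ degBound (Fintype.card B) S.w := by
    rw [degBound]
    exact Nat.succ_le_of_lt (by positivity)
  obtain ⟨Q, hQJ, hQK, hQ⟩ := (S.bsys (by omega) H).exists_psys
  have hQJ' : Q.J = S.JC := hQJ
  have hQK' : Q.K = 1 := hQK
  have hQ' : ∀ (n : ℕ) (v : (Fin (n + 1) → B) → ℂ), v ∈ Q.A (Fin (n + 1)) ↔ v ∈ S.AC n := hQ
  obtain ⟨O, O', hO, hpol⟩ := exists_O S.Ψ_pos
  have hO' : O' * O = 1 := mul_eq_one_comm.1 hO
  have hOdet : IsUnit O.det := isUnit_det_of_right_inverse hO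
  have hOst : O'.map star * O.map star = 1 := by
    have h1 := congrArg (fun M : Matrix B B ℂ => M.map Grad.st) hO'
    simp only [Matrix.map_mul] at h1
    rw [Matrix.map_one _ (map_zero _) (map_one _)] at h1
    exact h1
  -- all tensors of `Q` are fixed
  have hfixQ : ∀ (ι : Type) [Fintype ι] [DecidableEq ι] (v : (ι → B) → ℂ), v ∈ Q.A ι →
      ∀ (σ : ℂ ≃+* ℂ) (z : ℂ), z ≠ 0 → tp ι ((S.G.conj σ).h z) *ᵥ v = v := by
    intro ι _ _ v hv σ z hz
    obtain ⟨c, hc⟩ : ∃ c, Fintype.card ι = c := ⟨_, rfl⟩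
    cases c with
    | zero =>
      have : IsEmpty ι := Fintype.card_eq_zero_iff.1 hc
      exact tp_empty _ v
    | succ n =>
      let e : ι ≃ Fin (n + 1) := Fintype.equivFinOfCardEq hc
      have h1 := Q.relabel e hv
      rw [hQ'] at h1
      have h2 := S.AC_fixed n _ h1 σ z hz
      rw [tp_relabel] at h2
      funext x
      have h3 := congrFun h2 (x ∘ e.symm)
      have h4 : (x ∘ e.symm) ∘ e = x := by
        funext i
        simp
      simp only [h4] at h3
      exact h3
  have hmain := (base Q O O' hO).main (w := S.w) (T := S.curves O O')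
    (by
      rintro e ⟨σ, rfl⟩
      rw [curve_eq, Grad.h_one, Matrix.mul_one, hO'])
    (by
      refine isUnit_det_of_right_inverse (B := O'.map star * O) ?_
      change O' * (Q.K * O.map star) * (O'.map star * O) = 1
      have hOst' : O.map star * O'.map star = 1 := mul_eq_one_comm.1 hOst
      rw [hQK', Matrix.one_mul]
      calc O' * O.map star * (O'.map star * O) = O' * (O.map star * O'.map star) * O := by
            simp only [Matrix.mul_assoc]
        _ = 1 := by rw [hOst', Matrix.mul_one, hO'])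
    (by
      rintro e ⟨σ, rfl⟩ z hz
      have hz' : star z ≠ 0 := star_ne_zero.2 hz
      refine ⟨O' * (S.G.conj (σ.trans Grad.st)).h (star z)⁻¹ * O,
        S.mem_gen O O' _ (inv_ne_zero hz'), ?_⟩
      change O' * (S.G.conj (σ.trans Grad.st)).h (star z)⁻¹ * O * (O' * (Q.K * O.map star) * _) =
        O' * (Q.K * O.map star)
      rw [hQK', Matrix.one_mul, curve_eq]
      have h1 : (O' * (S.G.conj σ).h z * O).map star =
          O'.map star * (S.G.conj (σ.trans Grad.st)).h (star z) * O.map star := by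
        have h2 : (O' * (S.G.conj σ).h z * O).map Grad.st =
            O'.map Grad.st * ((S.G.conj σ).h z).map Grad.st * O.map Grad.st := by
          rw [Matrix.map_mul, Matrix.map_mul]
        rw [Grad.conj_h, conj_conj] at h2
        exact h2
      rw [h1]
      have hOst' : O.map star * O'.map star = 1 := mul_eq_one_comm.1 hOst
      calc O' * (S.G.conj (σ.trans Grad.st)).h (star z)⁻¹ * O * (O' * O.map star *
            (O'.map star * (S.G.conj (σ.trans Grad.st)).h (star z) * O.map star))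
          = O' * ((S.G.conj (σ.trans Grad.st)).h (star z)⁻¹ * (O * O') *
            (O.map star * O'.map star) * (S.G.conj (σ.trans Grad.st)).h (star z)) *
              O.map star := by
            simp only [Matrix.mul_assoc]
        _ = O' * O.map star := by
            rw [hO, hOst', Matrix.mul_one, Matrix.mul_one, Grad.h_inv' _ hz', Matrix.mul_one])
    (Ψ := Oᵀ * S.PC * O) (C := O' * S.G.h Complex.I * O) (C' := O' * S.G.h Complex.I⁻¹ * O)
    (S.mem_gen O O' (RingEquiv.refl ℂ) Complex.I_ne_zero)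
    (S.mem_gen O O' (RingEquiv.refl ℂ) (inv_ne_zero Complex.I_ne_zero))
    (by
      calc O' * S.G.h Complex.I⁻¹ * O * (O' * S.G.h Complex.I * O)
          = O' * (S.G.h Complex.I⁻¹ * (O * O') * S.G.h Complex.I) * O := by
            simp only [Matrix.mul_assoc]
        _ = 1 := by
            rw [hO, Matrix.mul_one, Grad.h_inv' _ Complex.I_ne_zero, Matrix.mul_one, hO'])
    (by
      change (O' * (Q.K * O.map star))ᵀ * (Oᵀ * S.PC * O) * (O' * S.G.h Complex.I * O) = 1
      rw [hQK', Matrix.one_mul, transpose_mul]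
      have h1 : (O.map star)ᵀ = Oᴴ := rfl
      have hO2 : O'ᵀ * Oᵀ = 1 := by rw [← transpose_mul, hO, transpose_one]
      have h2 : Oᴴ * (S.PC * S.G.h Complex.I) * O = 1 := hpol
      rw [h1]
      calc Oᴴ * O'ᵀ * (Oᵀ * S.PC * O) * (O' * S.G.h Complex.I * O)
          = Oᴴ * (O'ᵀ * Oᵀ) * S.PC * (O * O') * S.G.h Complex.I * O := by
            simp only [Matrix.mul_assoc]
        _ = Oᴴ * (S.PC * S.G.h Complex.I) * O := by
            rw [hO, hO2, Matrix.mul_one, Matrix.mul_one]
            simp only [Matrix.mul_assoc]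
        _ = 1 := h2)
    (by
      change IsUnit (Oᵀ * Q.J * O).det
      rw [hQJ', det_mul, det_mul, det_transpose]
      exact (hOdet.mul S.JC_det).mul hOdet)
    (by
      intro g hg
      change gᵀ * (Oᵀ * Q.J * O) * g = Oᵀ * Q.J * O
      rw [hQJ']
      exact S.form_gen hO (fun σ z hz => S.form_conj S.JC_conj S.J_orth σ hz) g hg)
    (S.form_gen hO (fun σ z hz => S.form_conj S.PC_conj S.Ψ_orth σ hz))
    (by
      intro ι _ _ v hv
      have hv' : tp ι O *ᵥ v ∈ Q.A ι := hv
      refine S.gen_induction ?_ (fun a b ha hb => ?_) fun σ z hz => ?_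
      · rw [tp_one, one_mulVec]
      · rw [tp_mul, ← mulVec_mulVec, hb, ha]
      · rw [tp_mul, tp_mul, ← mulVec_mulVec, ← mulVec_mulVec, hfixQ ι _ hv' σ z hz, mulVec_mulVec,
          ← tp_mul, hO', tp_one, one_mulVec])
    (D := degBound (Fintype.card B) S.w) le_rfl
    (by
      intro m hm v hv
      cases m with
      | zero => exact (base Q O O' hO).empty v
      | succ m =>
        change tp (Fin (m + 1)) O *ᵥ v ∈ Q.A (Fin (m + 1))
        rw [hQ']
        refine S.mem_AC_of_U H (by omega) fun σ z hz => ?_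
        have h1 := hv _ (S.mem_gen O O' σ hz)
        calc tp (Fin (m + 1)) ((S.G.conj σ).h z) *ᵥ (tp (Fin (m + 1)) O *ᵥ v)
            = tp (Fin (m + 1)) O *ᵥ (tp (Fin (m + 1)) (O' * (S.G.conj σ).h z * O) *ᵥ v) := by
              rw [mulVec_mulVec, mulVec_mulVec, ← tp_mul, ← tp_mul]
              congr 2
              rw [← Matrix.mul_assoc, ← Matrix.mul_assoc, hO, Matrix.one_mul]
          _ = tp (Fin (m + 1)) O *ᵥ v := by rw [h1])
    (ι := Fin (n + 1)) (v := tp (Fin (n + 1)) O' *ᵥ cx t)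
    (by
      refine S.gen_induction ?_ (fun a b ha hb => ?_) fun σ z hz => ?_
      · rw [tp_one, one_mulVec]
      · rw [tp_mul, ← mulVec_mulVec, hb, ha]
      · rw [mulVec_mulVec, ← tp_mul, Matrix.mul_assoc, hO, Matrix.mul_one, tp_mul,
          ← mulVec_mulVec, S.fixed_of_hodge ht σ hz])
  have h1 : tp (Fin (n + 1)) O *ᵥ (tp (Fin (n + 1)) O' *ᵥ cx t) ∈ Q.A (Fin (n + 1)) := hmain
  rw [mulVec_mulVec, ← tp_mul, hO, tp_one, one_mulVec, hQ'] at h1
  exact rat_mem _ h1

/-- Classes of length one. -/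
lemma tp_one_apply (g : Matrix B B ℂ) (e : (Fin 1 → B) → ℂ) (x : B) :
    (tp (Fin 1) g *ᵥ e) (fun _ => x) = (g *ᵥ fun y => e (fun _ => y)) x := by
  rw [mulVec, mulVec, dotProduct, dotProduct, ← (Equiv.funUnique (Fin 1) B).symm.sum_comp]
  refine Finset.sum_congr rfl fun y _ => ?_
  rw [tp_apply, Fin.prod_univ_one]
  rfl

/-- The descent by one factor. -/
lemma step {n : ℕ} (h : ∀ t, S.IsHodge (n + 2) t → t ∈ S.A (n + 1)) (t : (Fin (n + 1) → B) → ℚ)
    (ht : S.IsHodge (n + 1) t) : t ∈ S.A n := by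
  obtain ⟨e, he, f, hf, hef⟩ := S.obj
  have h1 : S.IsHodge (n + 2) (fun I => e (fun _ => I 0) * t (Fin.tail I)) := by
    intro z hz
    have h2 : cx (fun I : Fin (n + 1 + 1) → B => e (fun _ => I 0) * t (Fin.tail I)) =
        fun I => (fun x => cx e (fun _ => x)) (I 0) * cx t (Fin.tail I) := by
      funext I
      simp [cx]
    have h3 : tp (Fin (n + 1 + 1)) (curve S.w S.π z) *ᵥ
        (fun I => (fun x => cx e (fun _ => x)) (I 0) * cx t (Fin.tail I)) =
          fun I => (fun x => cx e (fun _ => x)) (I 0) * cx t (Fin.tail I) := by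
      refine (tp_cons _ (fun x => cx e (fun _ => x)) (cx t)).trans ?_
      rw [ht z hz]
      funext I
      congr 1
      rw [← tp_one_apply, S.hodge 0 e he z hz]
    change tp (Fin (n + 1 + 1)) (curve S.w S.π z) *ᵥ cx _ = cx _
    rw [h2]
    exact h3
  have h4 := S.A_cast (by omega : 0 + 1 + (n + 1) = n + 2) (S.mul 0 (n + 1) f hf _ (h _ h1))
  have h5 := S.con n _ h4
  have h6 : (fun I : Fin (n + 1) → B => (∑ i, ∑ j, S.J i j * (f (fun _ => i) * e (fun _ => j))) *
      t I) ∈ S.A n := by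
    convert h5 using 1
    funext I
    rw [Finset.sum_mul]
    refine Finset.sum_congr rfl fun i _ => ?_
    rw [Finset.sum_mul]
    refine Finset.sum_congr rfl fun j _ => ?_
    have h7 : ∀ b : Fin (n + 2), (Fin.cast (by omega : 0 + 1 + (n + 1) + 1 = n + 2 + 1)
        (Fin.natAdd (0 + 1) b)) = b.succ := by
      intro b
      apply Fin.ext
      simp only [Fin.val_cast, Fin.val_natAdd, Fin.val_succ]
      omega
    have h8 : (fun b : Fin (n + 2) => (Fin.cons i (Fin.cons j I) : Fin (n + 2 + 1) → B)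
        (Fin.cast (by omega : 0 + 1 + (n + 1) + 1 = n + 2 + 1) (Fin.natAdd (0 + 1) b))) =
          Fin.cons j I := by
      funext b
      rw [h7, Fin.cons_succ]
    have h9 : (fun a : Fin 1 => (Fin.cons i (Fin.cons j I) : Fin (n + 2 + 1) → B)
        (Fin.cast (by omega : 0 + 1 + (n + 1) + 1 = n + 2 + 1) (Fin.castAdd (n + 1 + 1) a))) =
          fun _ => i := by
      funext a
      rw [Subsingleton.elim a 0]
      rfl
    have h10 : ∀ g : Fin (n + 2) → B, g = Fin.cons j I →
        e (fun _ => g 0) * t (Fin.tail g) = e (fun _ => j) * t I := by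
      rintro g rfl
      rw [Fin.cons_zero, Fin.tail_cons]
    rw [mul_assoc, mul_assoc]
    congr 1
    rw [← h10 _ h8, ← congrArg f h9]
  exact (Submodule.smul_mem_iff (S.A n) hef).1 h6

/-- **The theorem.** -/
theorem one_power {m : ℕ} (hm : bound (Fintype.card B) S.w ≤ m + 1) (h : S.HodgeConj m) (n : ℕ) :
    S.HodgeConj n := by
  have hall : S.HodgeUpTo (m + 1) := by
    have h1 : ∀ d k, k + d = m → S.HodgeConj k := by
      intro d
      induction d with
      | zero =>
        intro k hk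
        rw [Nat.add_zero] at hk
        rw [hk]
        exact h
      | succ d ih =>
        intro k hk t ht
        exact S.step (ih (k + 1) (by omega)) t ht
    intro k hk
    exact h1 (m - k) k (by omega)
  exact fun t ht => S.all hm hall n t ht

end NCSystem

end Pool.Agent.R914.NC
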