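import Pool.Agent.R914.NC.Torus
import Pool.Agent.R914.UN.BSysP
import Pool.Agent.R914.UN.PMain

/-!
# The system of tensors of a category
-/

set_option linter.unusedSectionVars false

namespace Pool.Agent.R914.NC

open Matrix Pool.Agent.R914.UN
open scoped ComplexOrder

variable {B : Type} [Fintype B] [DecidableEq B]

lemma tp_cons {m : ℕ} (g : Matrix B B ℂ) (a : B → ℂ) (b : (Fin m → B) → ℂ) :
    tp (Fin (m + 1)) g *ᵥ (fun I => a (I 0) * b (Fin.tail I)) =
      fun I => (g *ᵥ a) (I 0) * (tp (Fin m) g *ᵥ b) (Fin.tail I) := by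
  funext I
  simp only [mulVec, dotProduct]
  rw [← (Fin.consEquiv fun _ : Fin (m + 1) => B).sum_comp, Fintype.sum_prod_type,
    Finset.sum_mul_sum]
  refine Finset.sum_congr rfl fun x _ => Finset.sum_congr rfl fun y _ => ?_
  have h1 : Fin.tail ((Fin.consEquiv fun _ : Fin (m + 1) => B) (x, y)) = y := rfl
  rw [h1]
  simp only [Fin.consEquiv_apply, tp_apply, Fin.prod_univ_succ, Fin.cons_zero, Fin.cons_succ,
    Fin.tail]
  ring

lemma tp_two (g M : Matrix B B ℂ) :
    tp (Fin 2) g *ᵥ (fun I => M (I 0) (I 1)) = fun I => (g * M * gᵀ) (I 0) (I 1) := by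
  funext I
  simp only [mulVec, dotProduct]
  rw [← (finTwoArrowEquiv B).symm.sum_comp, Fintype.sum_prod_type]
  simp only [Matrix.mul_apply, Finset.sum_mul]
  rw [Finset.sum_comm]
  refine Finset.sum_congr rfl fun x _ => Finset.sum_congr rfl fun y _ => ?_
  simp only [tp_apply, Fin.prod_univ_two, finTwoArrowEquiv_symm_apply, Matrix.cons_val_zero,
    Matrix.cons_val_one, transpose_apply]
  ring

namespace NCSystem

variable (S : NCSystem B)

/-- The complex span of the algebraic classes. -/
def AC (n : ℕ) : Submodule ℂ ((Fin (n + 1) → B) → ℂ) :=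
  Submodule.span ℂ (cx '' (S.A n : Set ((Fin (n + 1) → B) → ℚ)))

lemma mem_AC {n : ℕ} {t : (Fin (n + 1) → B) → ℚ} (ht : t ∈ S.A n) : cx t ∈ S.AC n :=
  Submodule.subset_span ⟨t, ht, rfl⟩

lemma AC_map {n m : ℕ} (L : ((Fin (n + 1) → B) → ℂ) → ((Fin (m + 1) → B) → ℂ))
    (hadd : ∀ u v, L (u + v) = L u + L v) (hsmul : ∀ (c : ℂ) v, L (c • v) = c • L v)
    (h : ∀ t ∈ S.A n, L (cx t) ∈ S.AC m) : ∀ v ∈ S.AC n, L v ∈ S.AC m := by
  intro v hv
  induction hv using Submodule.span_induction with
  | mem x hx =>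
    obtain ⟨t, ht, rfl⟩ := hx
    exact h t ht
  | zero =>
    have := hsmul 0 0
    rw [zero_smul, zero_smul] at this
    rw [this]
    exact Submodule.zero_mem _
  | add x y _ _ hx hy =>
    rw [hadd]
    exact Submodule.add_mem _ hx hy
  | smul c x _ hx =>
    rw [hsmul]
    exact Submodule.smul_mem _ _ hx

lemma A_cast {n m : ℕ} (h : n = m) {t : (Fin (n + 1) → B) → ℚ} (ht : t ∈ S.A n) :
    (fun I : Fin (m + 1) → B => t (fun i => I (Fin.cast (by rw [h]) i))) ∈ S.A m := by
  subst h
  exact ht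

lemma AC_perm (n : ℕ) (σ : Equiv.Perm (Fin (n + 1))) : ∃ s : (Fin (n + 1) → Bool) → ℂ,
    (∀ p, s p ≠ 0) ∧ ∀ v ∈ S.AC n, (fun w => s (S.par ∘ w) * v (w ∘ σ)) ∈ S.AC n := by
  have hσ : σ ∈ Submonoid.closure (Set.range fun i : Fin n => Equiv.swap i.castSucc i.succ) := by
    rw [Equiv.Perm.mclosure_swap_castSucc_succ]
    trivial
  induction hσ using Submonoid.closure_induction with
  | mem τ hτ =>
    obtain ⟨i, rfl⟩ := hτ
    refine ⟨fun p => (ksign (p i.castSucc) (p i.succ) : ℂ), fun p => ?_, ?_⟩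
    · simp only [ksign]
      split_ifs <;> simp
    · refine S.AC_map _ (fun u v => ?_) (fun c v => ?_) fun t ht => ?_
      · funext w
        simp only [Pi.add_apply, mul_add]
      · funext w
        simp only [Pi.smul_apply, smul_eq_mul]
        ring
      · have h1 := S.mem_AC (S.swap n i t ht)
        convert h1 using 1
        funext w
        simp only [cx, Function.comp_apply]
        push_cast
        rfl
  | one =>
    refine ⟨fun _ => 1, fun _ => one_ne_zero, fun v hv => ?_⟩
    convert hv using 1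
    funext w
    rw [one_mul, Equiv.Perm.coe_one, Function.comp_id]
  | mul σ τ _ _ hσ hτ =>
    obtain ⟨s, hs, h⟩ := hσ
    obtain ⟨s', hs', h'⟩ := hτ
    refine ⟨fun p => s p * s' (p ∘ σ), fun p => mul_ne_zero (hs _) (hs' _), fun v hv => ?_⟩
    have h1 := h _ (h' v hv)
    convert h1 using 1
    funext w
    rw [Equiv.Perm.coe_mul, ← mul_assoc]
    rfl

/-- The hypothesis for the lengths up to `N`. -/
def HodgeUpTo (N : ℕ) : Prop :=
  ∀ n, n + 1 ≤ N → ∀ t, S.IsHodge (n + 1) t → t ∈ S.A n

/-- The odd part of the identity. -/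
noncomputable def E : (Fin 2 → B) → ℚ := fun I => if S.par (I 0) = true then S.J⁻¹ (I 0) (I 1) else 0

/-- The parity operator. -/
def P : Matrix B B ℂ := Matrix.diagonal fun i => if S.par i = true then 1 else 0

lemma P_pi (k : ℤ) : S.P * S.π k = S.π k * S.P := by
  ext i j
  rw [P, diagonal_mul, mul_diagonal]
  by_cases h : S.π k i j = 0
  · rw [h, mul_zero, zero_mul]
  · rw [S.π_par k i j h, mul_comm]

lemma P_h (z : ℂ) : S.P * curve S.w S.π z = curve S.w S.π z * S.P := by
  rw [curve, Finset.mul_sum, Finset.sum_mul]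
  refine Finset.sum_congr rfl fun k _ => ?_
  rw [mul_smul_comm, smul_mul_assoc, P_pi]

lemma JC_inv : S.JC⁻¹ = S.J⁻¹.map (fun x : ℚ => (x : ℂ)) := by
  refine Matrix.inv_eq_right_inv ?_
  have h1 : S.J * S.J⁻¹ = 1 := mul_nonsing_inv _ (isUnit_iff_ne_zero.2 S.J_det)
  have h2 := congrArg (fun M : Matrix B B ℚ => M.map (algebraMap ℚ ℂ)) h1
  simp only [Matrix.map_mul] at h2
  rw [Matrix.map_one _ (map_zero _) (map_one _)] at h2
  have h3 : ∀ M : Matrix B B ℚ, M.map (algebraMap ℚ ℂ) = M.map (fun x : ℚ => (x : ℂ)) := by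
    intro M
    ext i j
    simp
  rw [h3, h3] at h2
  exact h2

lemma dual {z : ℂ} (hz : z ≠ 0) :
    curve S.w S.π z * S.JC⁻¹ * (curve S.w S.π z)ᵀ = S.JC⁻¹ :=
  dual_form S.JC_det (S.G.form S.J_orth hz)

lemma E_hodge : S.IsHodge 2 S.E := by
  intro z hz
  have h1 : cx S.E = fun I : Fin 2 → B => (S.P * S.JC⁻¹) (I 0) (I 1) := by
    funext I
    rw [P, diagonal_mul, JC_inv, cx, E]
    by_cases h : S.par (I 0) = true
    · rw [if_pos h, if_pos h, one_mul]
      rfl
    · rw [if_neg h, if_neg h, zero_mul]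
      simp
  rw [h1, tp_two, ← Matrix.mul_assoc, ← P_h, Matrix.mul_assoc S.P, Matrix.mul_assoc S.P, S.dual hz]

lemma AC_ev {N : ℕ} (hN : 2 ≤ N) (H : S.HodgeUpTo N) (n : ℕ) :
    ∀ v ∈ S.AC n, (fun w => if S.par (w 0) = true then v w else 0) ∈ S.AC n := by
  refine S.AC_map _ (fun u v => ?_) (fun c v => ?_) fun t ht => ?_
  · funext w
    simp only [Pi.add_apply]
    split_ifs <;> simp
  · funext w
    simp only [Pi.smul_apply, smul_eq_mul]
    split_ifs <;> simp
  · have hE := H 1 hN S.E S.E_hodge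
    have h1 := S.A_cast (by omega : 1 + 1 + n = n + 2) (S.mul 1 n _ hE t ht)
    have h2 := S.mem_AC (S.con' n _ h1)
    have h3 : (fun w => if S.par (w 0) = true then cx t w else 0) =
        cx (fun I : Fin (n + 1) → B => ∑ i, ∑ j, S.J i j * ((if S.par (I 0) = true then
          S.J⁻¹ (I 0) i else 0) * t (Fin.cons j (Fin.tail I)))) := by
      funext w
      by_cases hw : S.par (w 0) = true
      · simp only [hw, if_true, cx]
        congr 1
        rw [Finset.sum_comm]
        have h4 : ∀ j, ∑ i, S.J i j * (S.J⁻¹ (w 0) i * t (Fin.cons j (Fin.tail w))) =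
            (1 : Matrix B B ℚ) (w 0) j * t (Fin.cons j (Fin.tail w)) := by
          intro j
          rw [← nonsing_inv_mul S.J (isUnit_iff_ne_zero.2 S.J_det), Matrix.mul_apply,
            Finset.sum_mul]
          refine Finset.sum_congr rfl fun i _ => ?_
          ring
        rw [Finset.sum_congr rfl fun j _ => h4 j, Finset.sum_eq_single (w 0)]
        · rw [Matrix.one_apply_eq, one_mul, Fin.cons_self_tail]
        · intro j _ hj
          rw [Matrix.one_apply_ne (Ne.symm hj), zero_mul]
        · intro h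
          exact absurd (Finset.mem_univ _) h
      · simp only [hw, cx]
        simp
    rw [h3]
    convert h2 using 3
    refine Finset.sum_congr rfl fun i _ => Finset.sum_congr rfl fun j _ => ?_
    congr 2
    congr 1
    funext b
    have h5 : (Fin.cast (by omega : 1 + 1 + n + 1 = n + 2 + 1) (Fin.natAdd (1 + 1) b)) =
        b.succ.succ := by
      apply Fin.ext
      simp only [Fin.val_cast, Fin.val_natAdd, Fin.val_succ]
      omega
    beta_reduce
    rw [h5, Fin.cons_succ, Fin.cons_succ]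

lemma AC_con (n : ℕ) : ∀ v ∈ S.AC (n + 2),
    (fun w => ∑ i, ∑ j, S.JC i j * v (Fin.cons i (Fin.cons j w))) ∈ S.AC n := by
  refine S.AC_map _ (fun u v => ?_) (fun c v => ?_) fun t ht => ?_
  · funext w
    simp only [Pi.add_apply, mul_add, Finset.sum_add_distrib]
  · funext w
    simp only [Pi.smul_apply, smul_eq_mul, Finset.mul_sum]
    refine Finset.sum_congr rfl fun i _ => Finset.sum_congr rfl fun j _ => ?_
    ring
  · have h1 := S.mem_AC (S.con n t ht)
    convert h1 using 1
    funext w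
    simp only [cx]
    push_cast
    rfl

lemma AC_mul (n m : ℕ) : ∀ v ∈ S.AC n, ∀ u ∈ S.AC m, (fun w : Fin (n + 1 + m + 1) → B =>
    v (fun i => w (Fin.castAdd (m + 1) i)) * u (fun j => w (Fin.natAdd (n + 1) j))) ∈
      S.AC (n + 1 + m) := by
  intro v hv u hu
  refine S.AC_map (fun v w => v (fun i => w (Fin.castAdd (m + 1) i)) *
    u (fun j => w (Fin.natAdd (n + 1) j))) (fun u v => ?_) (fun c v => ?_) (fun t ht => ?_) v hv
  · funext w
    simp only [Pi.add_apply, add_mul]
  · funext w
    simp only [Pi.smul_apply, smul_eq_mul, mul_assoc]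
  · refine S.AC_map (fun u w => cx t (fun i => w (Fin.castAdd (m + 1) i)) *
      u (fun j => w (Fin.natAdd (n + 1) j))) (fun u v => ?_) (fun c v => ?_) (fun s hs => ?_) u hu
    · funext w
      simp only [Pi.add_apply, mul_add]
    · funext w
      simp only [Pi.smul_apply, smul_eq_mul]
      ring
    · have h1 := S.mem_AC (S.mul n m t ht s hs)
      have h2 : (fun w : Fin (n + 1 + m + 1) → B => cx t (fun i => w (Fin.castAdd (m + 1) i)) *
          cx s (fun j => w (Fin.natAdd (n + 1) j))) = cx (fun I : Fin (n + 1 + m + 1) → B =>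
          t (fun i => I (Fin.castAdd (m + 1) i)) * s (fun j => I (Fin.natAdd (n + 1) j))) := by
        funext w
        simp only [cx]
        push_cast
        rfl
      rw [← h2] at h1
      exact h1

lemma AC_star (n : ℕ) : ∀ v ∈ S.AC n, star v ∈ S.AC n := by
  intro v hv
  induction hv using Submodule.span_induction with
  | mem x hx =>
    obtain ⟨t, ht, rfl⟩ := hx
    have : star (cx t) = cx t := by
      funext I
      simp [cx]
    rw [this]
    exact S.mem_AC ht
  | zero =>
    rw [star_zero]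
    exact Submodule.zero_mem _
  | add x y _ _ hx hy =>
    rw [star_add]
    exact Submodule.add_mem _ hx hy
  | smul c x _ hx =>
    rw [star_smul]
    exact Submodule.smul_mem _ _ hx

/-- The system of tensors. -/
def bsys {N : ℕ} (hN : 2 ≤ N) (H : S.HodgeUpTo N) : BSys B where
  A := S.AC
  par := S.par
  J := S.JC
  K := 1
  perm := S.AC_perm
  ev := S.AC_ev hN H
  mul := S.AC_mul
  con := S.AC_con
  conj n v hv := by
    rw [tp_one, one_mulVec]
    exact S.AC_star n v hv

end NCSystem

end Pool.Agent.R914.NC
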