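import Pool.Agent.R914.NC.Defs

/-!
# The torus of the Hodge structure and its conjugates
-/

set_option linter.unusedSectionVars false

namespace Pool.Agent.R914.NC

open Matrix Pool.Agent.R914.UN
open scoped ComplexOrder

variable {B : Type} [Fintype B] [DecidableEq B]

/-- A system of orthogonal projections with the sum `1`. -/
structure Grad (B : Type) [Fintype B] [DecidableEq B] where
  w : ℕ
  π : ℤ → Matrix B B ℂ
  mul : ∀ k l, π k * π l = if k = l then π k else 0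
  sum : ∑ k ∈ Finset.Icc (-(w : ℤ)) w, π k = 1

namespace Grad

variable (G : Grad B)

/-- The torus. -/
noncomputable def h (z : ℂ) : Matrix B B ℂ := curve G.w G.π z

lemma h_def (z : ℂ) : G.h z = ∑ k ∈ Finset.Icc (-(G.w : ℤ)) G.w, z ^ k • G.π k := rfl

lemma h_one : G.h 1 = 1 := by
  rw [h_def, ← G.sum]
  exact Finset.sum_congr rfl fun k _ => by rw [_root_.one_zpow, one_smul]

lemma h_mul (z z' : ℂ) : G.h z * G.h z' = G.h (z * z') := by
  rw [h_def, h_def, h_def, Finset.sum_mul_sum]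
  refine Finset.sum_congr rfl fun k hk => ?_
  rw [Finset.sum_eq_single k]
  · rw [smul_mul_smul_comm, G.mul, if_pos rfl, mul_zpow]
  · intro l _ hl
    rw [smul_mul_smul_comm, G.mul, if_neg (Ne.symm hl), smul_zero]
  · intro h
    exact absurd hk h

lemma h_inv {z : ℂ} (hz : z ≠ 0) : G.h z * G.h z⁻¹ = 1 := by
  rw [h_mul, mul_inv_cancel₀ hz, h_one]

lemma h_inv' {z : ℂ} (hz : z ≠ 0) : G.h z⁻¹ * G.h z = 1 := by
  rw [h_mul, inv_mul_cancel₀ hz, h_one]

/-- Invariant forms. -/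
lemma form {F : Matrix B B ℂ} (hF : ∀ k l, k + l ≠ 0 → (G.π k)ᵀ * F * G.π l = 0) {z : ℂ}
    (hz : z ≠ 0) : (G.h z)ᵀ * F * G.h z = F := by
  have h1 : ∀ z : ℂ, z ≠ 0 → (G.h z)ᵀ * F * G.h z = ∑ k ∈ Finset.Icc (-(G.w : ℤ)) G.w,
      ∑ l ∈ Finset.Icc (-(G.w : ℤ)) G.w, (if k + l = 0 then (G.π k)ᵀ * F * G.π l else 0) := by
    intro z hz
    rw [h_def, transpose_sum, Finset.sum_mul, Finset.sum_mul]
    refine Finset.sum_congr rfl fun k _ => ?_
    rw [Finset.mul_sum]
    refine Finset.sum_congr rfl fun l _ => ?_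
    rw [transpose_smul, smul_mul_assoc, smul_mul_assoc, mul_smul_comm, smul_smul]
    by_cases hkl : k + l = 0
    · rw [if_pos hkl, ← zpow_add₀ hz, hkl, zpow_zero, one_smul]
    · rw [if_neg hkl, hF k l hkl, smul_zero]
  rw [h1 z hz, ← h1 1 one_ne_zero, h_one, transpose_one, Matrix.one_mul, Matrix.mul_one]

/-- The conjugate by a field automorphism. -/
def conj (σ : ℂ ≃+* ℂ) : Grad B where
  w := G.w
  π k := (G.π k).map σ
  mul k l := by
    rw [← Matrix.map_mul, G.mul]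
    by_cases h : k = l
    · rw [if_pos h, if_pos h]
    · rw [if_neg h, if_neg h]
      exact Matrix.map_zero σ (map_zero σ)
  sum := by
    have h1 : (∑ k ∈ Finset.Icc (-(G.w : ℤ)) G.w, G.π k).map σ = 1 := by
      rw [G.sum, Matrix.map_one σ (map_zero σ) (map_one σ)]
    rw [← h1]
    ext i j
    simp only [Matrix.map_apply, Matrix.sum_apply, map_sum]

lemma conj_h (σ : ℂ ≃+* ℂ) (z : ℂ) : (G.h z).map σ = (G.conj σ).h (σ z) := by
  rw [h_def, h_def]
  ext i j
  simp only [Matrix.map_apply, Matrix.sum_apply, map_sum, Matrix.smul_apply, smul_eq_mul, map_mul,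
    map_zpow₀, conj]

lemma conj_h' (σ : ℂ ≃+* ℂ) (z : ℂ) : (G.conj σ).h z = (G.h (σ.symm z)).map σ := by
  rw [conj_h, RingEquiv.apply_symm_apply]

/-- Complex conjugation as a ring automorphism. -/
noncomputable def st : ℂ ≃+* ℂ := Complex.conjAe.toRingEquiv

lemma st_apply (z : ℂ) : st z = star z := rfl

end Grad

/-- The action of a field automorphism on the tensors. -/
lemma tp_map (n : ℕ) (σ : ℂ ≃+* ℂ) (g : Matrix B B ℂ) (v : (Fin n → B) → ℂ) :
    (fun I => σ ((tp (Fin n) g *ᵥ v) I)) = tp (Fin n) (g.map σ) *ᵥ (fun I => σ (v I)) := by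
  funext I
  simp only [mulVec, dotProduct, tp_apply, map_sum, map_mul, map_prod, Matrix.map_apply]

namespace NCSystem

variable (S : NCSystem B)

/-- The grading. -/
def G : Grad B := ⟨S.w, S.π, S.π_mul, S.π_sum⟩

/-- The complex matrices. -/
def JC : Matrix B B ℂ := S.J.map (fun x : ℚ => (x : ℂ))

/-- The complex matrices. -/
def PC : Matrix B B ℂ := S.Ψ.map (fun x : ℚ => (x : ℂ))

lemma JC_conj (σ : ℂ ≃+* ℂ) : S.JC.map σ = S.JC := by
  ext i j
  simp [JC]

lemma PC_conj (σ : ℂ ≃+* ℂ) : S.PC.map σ = S.PC := by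
  ext i j
  simp [PC]

lemma form_conj {F : Matrix B B ℂ} (hσ : ∀ σ : ℂ ≃+* ℂ, F.map σ = F)
    (hF : ∀ k l, k + l ≠ 0 → (S.π k)ᵀ * F * S.π l = 0) (σ : ℂ ≃+* ℂ) {z : ℂ} (hz : z ≠ 0) :
    ((S.G.conj σ).h z)ᵀ * F * (S.G.conj σ).h z = F := by
  refine Grad.form _ (fun k l hkl => ?_) hz
  have h1 := congrArg (fun M : Matrix B B ℂ => M.map σ) (hF k l hkl)
  simp only [Matrix.map_mul] at h1
  rw [hσ, Matrix.map_zero σ (map_zero σ)] at h1
  exact h1

lemma JC_det : IsUnit S.JC.det := by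
  have h1 : S.JC = (algebraMap ℚ ℂ).mapMatrix S.J := by
    ext i j
    simp [JC]
  rw [h1, ← RingHom.map_det, isUnit_iff_ne_zero]
  intro h
  exact S.J_det ((map_eq_zero _).1 h)

/-- Rational Hodge tensors are fixed by all conjugates of the torus. -/
lemma fixed_of_hodge {n : ℕ} {t : (Fin n → B) → ℚ} (ht : S.IsHodge n t) (σ : ℂ ≃+* ℂ) {z : ℂ}
    (hz : z ≠ 0) : tp (Fin n) ((S.G.conj σ).h z) *ᵥ cx t = cx t := by
  have h1 : σ.symm z ≠ 0 := by
    intro h
    apply hz
    have := congrArg σ h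
    rwa [RingEquiv.apply_symm_apply, map_zero] at this
  have h2 : ∀ t : (Fin n → B) → ℚ, (fun I => σ (cx t I)) = cx t := fun t => by
    funext I
    simp [cx]
  have h3 := ht (σ.symm z) h1
  have h4 := congrArg (fun v : (Fin n → B) → ℂ => fun I => σ (v I)) h3
  simp only [h2] at h4
  rw [tp_map, h2] at h4
  rw [Grad.conj_h']
  exact h4

end NCSystem

end Pool.Agent.R914.NC
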